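import Mathlib

/-!
# Graphs given by coordinates

A vertex `u` has coordinates `X u x : P × Bool`.  The distance of two coordinates is `0` if they
agree, `2` if they agree only in the first component, and `1` otherwise (that is the distance of
the cocktail party graph with point set `P × Bool`).
-/

namespace Pool.Agent.Lib.MP_c36447_co

open Finset

section metric

variable {P : Type} [DecidableEq P]

/-- the metric of the cocktail party graph on `P × Bool` -/
def dX (a b : P × Bool) : ℕ :=
  if a.1 = b.1 then (if a.2 = b.2 then 0 else 2) else 1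

theorem dX_self (a : P × Bool) : dX a a = 0 := by simp [dX]

theorem dX_comm (a b : P × Bool) : dX a b = dX b a := by
  unfold dX
  by_cases h1 : a.1 = b.1
  · by_cases h2 : a.2 = b.2
    · simp [h1, h2]
    · simp [h1, h2, Ne.symm h2]
  · simp [h1, Ne.symm h1]

theorem dX_eq_zero {a b : P × Bool} : dX a b = 0 ↔ a = b := by
  unfold dX
  constructor
  · intro h
    by_cases h1 : a.1 = b.1
    · by_cases h2 : a.2 = b.2
      · exact Prod.ext h1 h2
      · simp [h1, h2] at h
    · simp [h1] at h
  · rintro rfl; simp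

theorem dX_triangle (a b c : P × Bool) : dX a c ≤ dX a b + dX b c := by
  obtain ⟨a1, a2⟩ := a
  obtain ⟨b1, b2⟩ := b
  obtain ⟨c1, c2⟩ := c
  unfold dX
  simp only
  by_cases hab : a1 = b1
  · subst hab
    by_cases hac : a1 = c1
    · subst hac
      simp only [if_true]
      rcases a2 with _ | _ <;> rcases b2 with _ | _ <;> rcases c2 with _ | _ <;> simp
    · simp [hac]
  · by_cases hbc : b1 = c1
    · subst hbc
      simp [hab]
    · by_cases hac : a1 = c1
      · subst hac
        simp only [if_true, if_neg hab, if_neg hbc]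
        split_ifs <;> omega
      · simp [hab, hbc, hac]

variable {V L : Type} [Fintype L]

/-- the sum of the coordinate distances -/
def delta (X : V → L → P × Bool) (u v : V) : ℕ := ∑ x, dX (X u x) (X v x)

theorem delta_self (X : V → L → P × Bool) (u : V) : delta X u u = 0 := by
  simp [delta, dX_self]

theorem delta_triangle (X : V → L → P × Bool) (u v w : V) :
    delta X u w ≤ delta X u v + delta X v w := by
  unfold delta
  rw [← Finset.sum_add_distrib]
  exact Finset.sum_le_sum fun x _ => dX_triangle _ _ _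

theorem delta_eq_zero (X : V → L → P × Bool) (hinj : Function.Injective X) {u v : V} :
    delta X u v = 0 ↔ u = v := by
  constructor
  · intro h
    unfold delta at h
    rw [Finset.sum_eq_zero_iff] at h
    exact hinj (funext fun x => dX_eq_zero.1 (h x (Finset.mem_univ x)))
  · rintro rfl; exact delta_self X u

theorem delta_comm (X : V → L → P × Bool) (u v : V) : delta X u v = delta X v u :=
  Finset.sum_congr rfl fun x _ => dX_comm _ _

/-- A single step in one coordinate. -/
theorem delta_step [DecidableEq L] (X : V → L → P × Bool) {u u' v : V} {x : L}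
    (h0 : ∀ y, y ≠ x → X u' y = X u y) (h1 : dX (X u x) (X u' x) = 1)
    (h2 : dX (X u' x) (X v x) + 1 = dX (X u x) (X v x)) :
    delta X u u' = 1 ∧ delta X u' v + 1 = delta X u v := by
  unfold delta
  constructor
  · rw [← Finset.add_sum_erase _ _ (Finset.mem_univ x), h1]
    have : ∑ y ∈ Finset.univ.erase x, dX (X u y) (X u' y) = 0 :=
      Finset.sum_eq_zero fun y hy => by rw [h0 y (Finset.ne_of_mem_erase hy), dX_self]
    rw [this]
  · rw [← Finset.add_sum_erase _ (fun y => dX (X u' y) (X v y)) (Finset.mem_univ x),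
      ← Finset.add_sum_erase _ (fun y => dX (X u y) (X v y)) (Finset.mem_univ x), ← h2]
    have : ∑ y ∈ Finset.univ.erase x, dX (X u' y) (X v y)
        = ∑ y ∈ Finset.univ.erase x, dX (X u y) (X v y) :=
      Finset.sum_congr rfl fun y hy => by rw [h0 y (Finset.ne_of_mem_erase hy)]
    rw [this]; ring

theorem dist_eq_delta [DecidableEq L] (G : SimpleGraph V) (X : V → L → P × Bool)
    (hadj : ∀ u v, G.Adj u v ↔ delta X u v = 1) (hinj : Function.Injective X)
    (hstep : ∀ u v, u ≠ v → ∃ (u' : V) (x : L), (∀ y, y ≠ x → X u' y = X u y) ∧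
      dX (X u x) (X u' x) = 1 ∧ dX (X u' x) (X v x) + 1 = dX (X u x) (X v x)) :
    (∀ u v, G.Reachable u v) ∧ ∀ u v, G.dist u v = delta X u v := by
  have hwalk : ∀ n u v, delta X u v = n → ∃ p : G.Walk u v, p.length = n := by
    intro n
    induction n with
    | zero =>
      intro u v h
      have := (delta_eq_zero X hinj).1 h
      subst this
      exact ⟨SimpleGraph.Walk.nil, rfl⟩
    | succ n ih =>
      intro u v h
      have hne : u ≠ v := by
        rintro rfl
        rw [delta_self] at h
        omega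
      obtain ⟨u', x, h0, h1, h2⟩ := hstep u v hne
      obtain ⟨e1, e2⟩ := delta_step X h0 h1 h2
      obtain ⟨p, hp⟩ := ih u' v (by omega)
      exact ⟨SimpleGraph.Walk.cons ((hadj u u').2 e1) p, by simp [hp]⟩
  have hlow : ∀ (u v : V) (p : G.Walk u v), delta X u v ≤ p.length := by
    intro u v p
    induction p with
    | nil => rw [delta_self]; exact Nat.zero_le _
    | @cons a b c h q ih =>
      have h1 := (hadj a b).1 h
      have h2 := delta_triangle X a b c
      rw [SimpleGraph.Walk.length_cons]
      omega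
  refine ⟨fun u v => ?_, fun u v => ?_⟩
  · obtain ⟨p, -⟩ := hwalk _ u v rfl
    exact ⟨p⟩
  · obtain ⟨p, hp⟩ := hwalk _ u v rfl
    have h1 : G.dist u v ≤ delta X u v := by rw [← hp]; exact G.dist_le p
    have hr : G.Reachable u v := ⟨p⟩
    obtain ⟨q, hq⟩ := hr.exists_walk_length_eq_dist
    have h2 := hlow u v q
    omega

end metric

section combine

variable {V L : Type} [Fintype V] [Fintype L] [DecidableEq L]

/-- Combination of the contributions of the coordinates. -/
theorem combine (D : L → V → V → ℝ) (θ : ℝ)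
    (h1 : ∀ x, ∃ c, ∀ u v, (∑ w, D x u w * D x w v) + θ * D x u v = c)
    (h2 : ∀ x y, x ≠ y → ∃ c, ∀ u v, ∑ w, D x u w * D y w v = c) :
    ∃ c, ∀ u v, (∑ w, (∑ x, D x u w) * (∑ y, D y w v)) + θ * (∑ x, D x u v) = c := by
  choose c1 hc1 using h1
  have h2' : ∀ x y, ∃ c, x ≠ y → ∀ u v, ∑ w, D x u w * D y w v = c := by
    intro x y
    by_cases h : x = y
    · exact ⟨0, fun h' => absurd h h'⟩
    · obtain ⟨c, hc⟩ := h2 x y h
      exact ⟨c, fun _ => hc⟩
  choose c2 hc2 using h2'
  refine ⟨∑ x, (c1 x + ∑ y ∈ Finset.univ.erase x, c2 x y), fun u v => ?_⟩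
  have e1 : ∑ w, (∑ x, D x u w) * (∑ y, D y w v) = ∑ x, ∑ y, ∑ w, D x u w * D y w v := by
    simp_rw [Finset.sum_mul_sum]
    rw [Finset.sum_comm]
    exact Finset.sum_congr rfl fun x _ => Finset.sum_comm
  rw [e1, Finset.mul_sum, ← Finset.sum_add_distrib]
  refine Finset.sum_congr rfl fun x _ => ?_
  rw [← Finset.add_sum_erase _ _ (Finset.mem_univ x), ← hc1 x u v]
  have : ∑ y ∈ Finset.univ.erase x, ∑ w, D x u w * D y w v
      = ∑ y ∈ Finset.univ.erase x, c2 x y :=
    Finset.sum_congr rfl fun y hy => hc2 x y (Finset.ne_of_mem_erase hy).symm u v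
  rw [this]; ring

end combine

section pisums

variable {ι P : Type} [Fintype ι] [DecidableEq ι] [Fintype P]

theorem sum_pi_one (x : ι) (F : P → ℝ) :
    ∑ w : ι → P, F (w x) = (Fintype.card P : ℝ) ^ (Fintype.card ι - 1) * ∑ p, F p := by
  classical
  have h := (Equiv.funSplitAt x P).symm.sum_comp (fun w : ι → P => F (w x))
  rw [← h, Fintype.sum_prod_type]
  have h2 : ∀ (p : P) (g : {j // j ≠ x} → P),
      F (((Equiv.funSplitAt x P).symm (p, g)) x) = F p := by
    intro p g
    simp [Equiv.funSplitAt, Equiv.piSplitAt]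
  simp_rw [h2, Finset.sum_const, Finset.card_univ, nsmul_eq_mul]
  rw [← Finset.mul_sum]
  congr 1
  rw [Fintype.card_fun]
  have : Fintype.card {j // j ≠ x} = Fintype.card ι - 1 := by
    rw [Fintype.card_subtype_compl, Fintype.card_subtype_eq]
  rw [this]
  push_cast
  rfl

theorem sum_pi_two {x y : ι} (hxy : x ≠ y) (F G : P → ℝ) :
    ∑ w : ι → P, F (w x) * G (w y)
      = (Fintype.card P : ℝ) ^ (Fintype.card ι - 1 - 1) * ((∑ p, F p) * ∑ p, G p) := by
  classical
  have h := (Equiv.funSplitAt x P).symm.sum_comp (fun w : ι → P => F (w x) * G (w y))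
  rw [← h, Fintype.sum_prod_type]
  have h2 : ∀ (p : P) (g : {j // j ≠ x} → P),
      F (((Equiv.funSplitAt x P).symm (p, g)) x) * G (((Equiv.funSplitAt x P).symm (p, g)) y)
        = F p * G (g ⟨y, hxy.symm⟩) := by
    intro p g
    simp [Equiv.funSplitAt, Equiv.piSplitAt, hxy.symm]
  simp_rw [h2, ← Finset.mul_sum]
  have hc : Fintype.card {j // j ≠ x} = Fintype.card ι - 1 := by
    rw [Fintype.card_subtype_compl, Fintype.card_subtype_eq]
  rw [← Finset.sum_mul, sum_pi_one, hc]
  ring

end pisums

end Pool.Agent.Lib.MP_c36447_co
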