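import Mathlib
import Pool.Agent.Lib.MP_c36447_co.Coords

/-!
# The distance-cospectral mate

The vertices are the points of a blown-up cycle: a vertex of the isometric cycle of length
`2 (m + 1)` of the `(m + 1)`-cube (`Bool × Fin (m + 1)`), a point of `Fin h` for each of the
`m + 1` coordinates, a sign for each of the last `m` coordinates, and `a` further coordinates
in `Bool × Fin h`.
-/

namespace Pool.Agent.Lib.MP_c36447_co

open Finset

/-- The `j`-th coordinate of the vertex `c` of the isometric cycle in the cube. -/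
def blk {m : ℕ} (c : Bool × Fin (m + 1)) (j : Fin (m + 1)) : Bool :=
  if j < c.2 then !c.1 else c.1

/-- vertices of the mate -/
abbrev VG (m h a : ℕ) : Type :=
  ((Bool × Fin (m + 1)) × (Fin (m + 1) → Fin h)) × ((Fin m → Bool) × (Fin a → Bool × Fin h))

/-- coordinates of the vertices of the mate -/
def XG {m h a : ℕ} (w : VG m h a) : Fin (m + 1) ⊕ Fin a → (Bool × Fin h) × Bool
  | Sum.inl j => ((blk w.1.1 j, w.1.2 j), (Fin.cons false w.2.1 : Fin (m + 1) → Bool) j)
  | Sum.inr l => (w.2.2 l, false)

/-- the mate -/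
def mate (m h a : ℕ) : SimpleGraph (VG m h a) where
  Adj u v := delta XG u v = 1
  symm := ⟨fun u v h => by rw [delta_comm]; exact h⟩
  loopless := ⟨fun u h => by rw [delta_self] at h; omega⟩

section cycle

variable {m : ℕ}

theorem blk_last (c : Bool × Fin (m + 1)) : blk c (Fin.last m) = c.1 := by
  unfold blk
  rw [if_neg (not_lt.2 (Fin.le_last _))]

theorem blk_injective : Function.Injective (blk (m := m)) := by
  intro c c' h
  have h1 : c.1 = c'.1 := by
    have := congrFun h (Fin.last m)
    rwa [blk_last, blk_last] at this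
  refine Prod.ext h1 ?_
  rcases lt_trichotomy c.2 c'.2 with hlt | heq | hlt
  · have := congrFun h c.2
    unfold blk at this
    rw [if_neg (lt_irrefl _), if_pos hlt, h1] at this
    simp at this
  · exact heq
  · have := congrFun h c'.2
    unfold blk at this
    rw [if_neg (lt_irrefl _), if_pos hlt, h1] at this
    simp at this

theorem cycle_step (c c' : Bool × Fin (m + 1)) (hne : c ≠ c') :
    ∃ (c'' : Bool × Fin (m + 1)) (j : Fin (m + 1)), blk c j ≠ blk c' j ∧
      blk c'' j = blk c' j ∧ ∀ i, i ≠ j → blk c'' i = blk c i := by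
  obtain ⟨e, s⟩ := c
  obtain ⟨e', s'⟩ := c'
  by_cases he : e = e'
  · subst he
    have hs : s ≠ s' := fun h => hne (by rw [h])
    rcases lt_or_gt_of_ne hs with hlt | hlt
    · -- increase `s`
      have hs1 : (s : ℕ) + 1 < m + 1 := by
        have := s'.2; have : (s : ℕ) < s' := hlt; omega
      refine ⟨(e, ⟨s + 1, hs1⟩), s, ?_, ?_, ?_⟩
      · simp [blk, hlt]
      · have : s < (⟨s + 1, hs1⟩ : Fin (m + 1)) := by rw [Fin.lt_def]; simp
        simp [blk, hlt, this]
      · intro i hi
        have : (i < (⟨s + 1, hs1⟩ : Fin (m + 1))) ↔ i < s := by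
          rw [Fin.lt_def, Fin.lt_def]
          have : (i : ℕ) ≠ s := fun h => hi (Fin.ext h)
          simp only; omega
        simp [blk, this]
    · -- decrease `s`
      have hs1 : (s : ℕ) - 1 < m + 1 := by have := s.2; omega
      have hs0 : (s' : ℕ) < s := hlt
      refine ⟨(e, ⟨s - 1, hs1⟩), ⟨s - 1, hs1⟩, ?_, ?_, ?_⟩
      · have h1 : (⟨s - 1, hs1⟩ : Fin (m + 1)) < s := by rw [Fin.lt_def]; simp only; omega
        have h2 : ¬ (⟨s - 1, hs1⟩ : Fin (m + 1)) < s' := by rw [Fin.lt_def]; simp only; omega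
        simp [blk, h1, h2]
      · have h2 : ¬ (⟨s - 1, hs1⟩ : Fin (m + 1)) < s' := by rw [Fin.lt_def]; simp only; omega
        simp [blk, h2]
      · intro i hi
        have : (i < (⟨s - 1, hs1⟩ : Fin (m + 1))) ↔ i < s := by
          rw [Fin.lt_def, Fin.lt_def]
          have : (i : ℕ) ≠ s - 1 := fun h => hi (Fin.ext h)
          simp only; omega
        simp [blk, this]
  · have he' : e' = !e := by
      rcases e with _ | _ <;> rcases e' with _ | _ <;> simp_all
    subst he'
    by_cases hss : s' ≤ s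
    · by_cases hlast : (s : ℕ) + 1 < m + 1
      · refine ⟨(e, ⟨s + 1, hlast⟩), s, ?_, ?_, ?_⟩
        · have h2 : ¬ s < s' := not_lt.2 hss
          simp [blk, h2]
        · have h1 : s < (⟨s + 1, hlast⟩ : Fin (m + 1)) := by rw [Fin.lt_def]; simp
          have h2 : ¬ s < s' := not_lt.2 hss
          simp [blk, h1, h2]
        · intro i hi
          have : (i < (⟨s + 1, hlast⟩ : Fin (m + 1))) ↔ i < s := by
            rw [Fin.lt_def, Fin.lt_def]
            have : (i : ℕ) ≠ s := fun h => hi (Fin.ext h)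
            simp only; omega
          simp [blk, this]
      · refine ⟨(!e, 0), s, ?_, ?_, ?_⟩
        · have h2 : ¬ s < s' := not_lt.2 hss
          simp [blk, h2]
        · have h2 : ¬ s < s' := not_lt.2 hss
          simp [blk, h2]
        · intro i hi
          have h1 : i < s := by
            rw [Fin.lt_def]
            have : (i : ℕ) ≠ s := fun h => hi (Fin.ext h)
            have := i.2
            omega
          simp [blk, h1]
    · have hss' : s < s' := not_le.1 hss
      by_cases hs0 : 0 < (s : ℕ)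
      · have hs1 : (s : ℕ) - 1 < m + 1 := by have := s.2; omega
        have h3 : (s : ℕ) < s' := hss'
        refine ⟨(e, ⟨s - 1, hs1⟩), ⟨s - 1, hs1⟩, ?_, ?_, ?_⟩
        · have h1 : (⟨s - 1, hs1⟩ : Fin (m + 1)) < s := by rw [Fin.lt_def]; simp only; omega
          have h2 : (⟨s - 1, hs1⟩ : Fin (m + 1)) < s' := by rw [Fin.lt_def]; simp only; omega
          simp [blk, h1, h2]
        · have h2 : (⟨s - 1, hs1⟩ : Fin (m + 1)) < s' := by rw [Fin.lt_def]; simp only; omega
          simp [blk, h2]
        · intro i hi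
          have : (i < (⟨s - 1, hs1⟩ : Fin (m + 1))) ↔ i < s := by
            rw [Fin.lt_def, Fin.lt_def]
            have : (i : ℕ) ≠ s - 1 := fun h => hi (Fin.ext h)
            simp only; omega
          simp [blk, this]
      · have hs00 : s = 0 := Fin.ext (by show (s : ℕ) = 0; omega)
        subst hs00
        refine ⟨(!e, Fin.last m), Fin.last m, ?_, ?_, ?_⟩
        · rw [blk_last, blk_last]; simp
        · rw [blk_last, blk_last]
        · intro i hi
          have h1 : i < Fin.last m := lt_of_le_of_ne (Fin.le_last i) hi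
          simp [blk, h1]

theorem sum_blk (j : Fin (m + 1)) (F : Bool → ℝ) :
    ∑ c : Bool × Fin (m + 1), F (blk c j) = (m + 1 : ℝ) * ∑ b, F b := by
  rw [Fintype.sum_prod_type_right]
  have : ∀ s : Fin (m + 1), ∑ e : Bool, F (blk (e, s) j) = ∑ b, F b := by
    intro s
    rw [Fintype.sum_bool, Fintype.sum_bool]
    by_cases h : j < s
    · simp [blk, h]; ring
    · simp [blk, h]
  simp_rw [this, Finset.sum_const, Finset.card_univ, nsmul_eq_mul, Fintype.card_fin]
  push_cast
  ring

end cycle

section mate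

variable {m h a : ℕ}

theorem XG_inl (w : VG m h a) (j : Fin (m + 1)) :
    XG w (Sum.inl j) = ((blk w.1.1 j, w.1.2 j), (Fin.cons false w.2.1 : Fin (m + 1) → Bool) j) :=
  rfl

theorem XG_inr (w : VG m h a) (l : Fin a) : XG w (Sum.inr l) = (w.2.2 l, false) := rfl

theorem XG_injective : Function.Injective (XG (m := m) (h := h) (a := a)) := by
  rintro ⟨⟨c, t⟩, ⟨s, z⟩⟩ ⟨⟨c', t'⟩, ⟨s', z'⟩⟩ hX
  have h1 : ∀ j, blk c j = blk c' j ∧ t j = t' j ∧
      (Fin.cons false s : Fin (m + 1) → Bool) j = (Fin.cons false s' : Fin (m + 1) → Bool) j := by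
    intro j
    have := congrFun hX (Sum.inl j)
    simp only [XG_inl, Prod.mk.injEq] at this
    exact ⟨this.1.1, this.1.2, this.2⟩
  have h2 : ∀ l, z l = z' l := by
    intro l
    have := congrFun hX (Sum.inr l)
    simp only [XG_inr, Prod.mk.injEq] at this
    exact this.1
  have hc : c = c' := blk_injective (funext fun j => (h1 j).1)
  have ht : t = t' := funext fun j => (h1 j).2.1
  have hs : s = s' := by
    funext i
    have := (h1 i.succ).2.2
    simpa using this
  have hz : z = z' := funext h2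
  rw [hc, ht, hs, hz]

/-- replace the `j`-th coordinate of `u` by that of `v` (and the cycle vertex by `c`) -/
def move (u v : VG m h a) (c : Bool × Fin (m + 1)) (j : Fin (m + 1)) : VG m h a :=
  ((c, Function.update u.1.2 j (v.1.2 j)),
    ((fun i => if i.succ = j then v.2.1 i else u.2.1 i), u.2.2))

theorem move_step (u v : VG m h a) (c : Bool × Fin (m + 1)) (j : Fin (m + 1))
    (h1 : blk c j = blk v.1.1 j) (h2 : ∀ i, i ≠ j → blk c i = blk u.1.1 i)
    (h3 : (XG u (Sum.inl j)).1 ≠ (XG v (Sum.inl j)).1) :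
    (∀ y, y ≠ Sum.inl j → XG (move u v c j) y = XG u y) ∧
      dX (XG u (Sum.inl j)) (XG (move u v c j) (Sum.inl j)) = 1 ∧
      dX (XG (move u v c j) (Sum.inl j)) (XG v (Sum.inl j)) + 1
        = dX (XG u (Sum.inl j)) (XG v (Sum.inl j)) := by
  have hj : XG (move u v c j) (Sum.inl j) = XG v (Sum.inl j) := by
    rw [XG_inl, XG_inl]
    simp only [move, Function.update_self, h1]
    congr 1
    rcases Fin.eq_zero_or_eq_succ j with rfl | ⟨i, rfl⟩
    · rfl
    · simp
  refine ⟨?_, ?_, ?_⟩
  · rintro (i | l) hy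
    · have hij : i ≠ j := fun h => hy (by rw [h])
      rw [XG_inl, XG_inl]
      simp only [move, h2 i hij, Function.update_of_ne hij]
      congr 1
      rcases Fin.eq_zero_or_eq_succ i with rfl | ⟨i', rfl⟩
      · rfl
      · simp [hij]
    · rfl
  · rw [hj]; unfold dX; rw [if_neg h3]
  · rw [hj, dX_self]; unfold dX; rw [if_neg h3]

theorem mate_step (hh : 2 ≤ h) (u v : VG m h a) (hne : u ≠ v) :
    ∃ (u' : VG m h a) (x : Fin (m + 1) ⊕ Fin a), (∀ y, y ≠ x → XG u' y = XG u y) ∧
      dX (XG u x) (XG u' x) = 1 ∧ dX (XG u' x) (XG v x) + 1 = dX (XG u x) (XG v x) := by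
  by_cases hA : ∃ l, u.2.2 l ≠ v.2.2 l
  · obtain ⟨l, hl⟩ := hA
    refine ⟨(u.1, (u.2.1, Function.update u.2.2 l (v.2.2 l))), Sum.inr l, ?_, ?_, ?_⟩
    · rintro (j | l') hy
      · rfl
      · have : l' ≠ l := fun h => hy (by rw [h])
        rw [XG_inr, XG_inr]
        simp [this]
    · rw [XG_inr, XG_inr]
      simp [dX, hl]
    · rw [XG_inr, XG_inr, XG_inr]
      simp [dX, hl]
  · push Not at hA
    by_cases hB : ∃ j, blk u.1.1 j = blk v.1.1 j ∧ u.1.2 j ≠ v.1.2 j
    · obtain ⟨j, hj1, hj2⟩ := hB
      exact ⟨move u v u.1.1 j, Sum.inl j, move_step u v u.1.1 j hj1 (fun _ _ => rfl)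
        (by rw [XG_inl, XG_inl]; simp [hj2])⟩
    · push Not at hB
      by_cases hc : u.1.1 = v.1.1
      · -- then only signs differ
        have ht : u.1.2 = v.1.2 := funext fun j => hB j (by rw [hc])
        have hz : u.2.2 = v.2.2 := funext hA
        have hs : u.2.1 ≠ v.2.1 := by
          intro hs
          exact hne (Prod.ext (Prod.ext hc ht) (Prod.ext hs hz))
        obtain ⟨i, hi⟩ : ∃ i, u.2.1 i ≠ v.2.1 i := by
          by_contra hcon
          push Not at hcon
          exact hs (funext hcon)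
        have hnt : Nontrivial (Fin h) := Fin.nontrivial_iff_two_le.2 hh
        obtain ⟨t', ht'⟩ := exists_ne (u.1.2 i.succ)
        refine ⟨((u.1.1, Function.update u.1.2 i.succ t'), u.2), Sum.inl i.succ, ?_, ?_, ?_⟩
        · rintro (j | l) hy
          · have : j ≠ i.succ := fun h => hy (by rw [h])
            rw [XG_inl, XG_inl]
            simp [Function.update_of_ne this]
          · rfl
        · rw [XG_inl, XG_inl]
          simp [dX, ht'.symm]
        · have ht'' : t' ≠ v.1.2 i.succ := by rw [← ht]; exact ht'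
          rw [XG_inl, XG_inl, XG_inl]
          simp [dX, hc, ht, hi, ht'']
      · obtain ⟨c'', j, h1, h2, h3⟩ := cycle_step u.1.1 v.1.1 hc
        exact ⟨move u v c'' j, Sum.inl j, move_step u v c'' j h2 h3
          (by rw [XG_inl, XG_inl]; simp [h1])⟩

theorem mate_dist (hh : 2 ≤ h) : (∀ u v, (mate m h a).Reachable u v) ∧
    ∀ u v, (mate m h a).dist u v = delta XG u v :=
  dist_eq_delta (mate m h a) XG (fun _ _ => Iff.rfl) XG_injective (fun u v hne => mate_step hh u v hne)

end mate

end Pool.Agent.Lib.MP_c36447_co
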