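import Mathlib
import Pool.Agent.Lib.MP_c36447_co.Mate

/-!
# Spectral data of the mate
-/

namespace Pool.Agent.Lib.MP_c36447_co

open Finset

section single

variable {P : Type} [Fintype P] [DecidableEq P]

theorem sum_ne (A : P) : ∑ p, (if A = p then (0 : ℝ) else 1) = Fintype.card P - 1 := by
  have : ∀ p, (if A = p then (0 : ℝ) else 1) = 1 - (if A = p then 1 else 0) := by
    intro p; split_ifs <;> simp
  simp_rw [this, Finset.sum_sub_distrib, Finset.sum_const, Finset.card_univ, nsmul_eq_mul,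
    Finset.sum_ite_eq, Finset.mem_univ, if_true, mul_one]

theorem sum_ne_ne (A B : P) :
    ∑ p, (if A = p then (0 : ℝ) else 1) * (if p = B then 0 else 1)
      = Fintype.card P - 1 - (if A = B then 0 else 1) := by
  have : ∀ p, (if A = p then (0 : ℝ) else 1) * (if p = B then 0 else 1)
      = (if A = p then (0 : ℝ) else 1) - (if B = p then (if A = B then 0 else 1) else 0) := by
    intro p
    by_cases h1 : p = B
    · subst h1; simp
    · have h2 : ¬ B = p := fun h => h1 h.symm
      simp [h1, h2]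
  simp_rw [this, Finset.sum_sub_distrib, sum_ne, Finset.sum_ite_eq, Finset.mem_univ, if_true]

theorem dX_false (A B : P) : (dX (A, false) (B, false) : ℝ) = if A = B then 0 else 1 := by
  unfold dX
  by_cases h : A = B
  · simp [h]
  · simp [h]

theorem dX_flip_add (A : P × Bool) (p : P) (s : Bool) :
    (dX A (p, s) : ℝ) + dX A (p, !s) = 2 := by
  obtain ⟨A1, A2⟩ := A
  unfold dX
  by_cases h : A1 = p
  · rcases A2 with _ | _ <;> rcases s with _ | _ <;> simp [h]
  · simp [h]; norm_num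

theorem dX_flip_mul (A B : P × Bool) (p : P) (s : Bool) :
    (dX A (p, s) : ℝ) * dX (p, s) B + dX A (p, !s) * dX (p, !s) B
      = 2 + 2 * (if p = A.1 then (1 - (dX A B : ℝ)) else 0) := by
  obtain ⟨A1, A2⟩ := A
  obtain ⟨B1, B2⟩ := B
  unfold dX
  simp only
  by_cases h : p = A1
  · subst h
    by_cases h2 : p = B1
    · subst h2
      rcases A2 with _ | _ <;> rcases B2 with _ | _ <;> rcases s with _ | _ <;> norm_num
    · rcases A2 with _ | _ <;> rcases s with _ | _ <;> simp [h2]
  · have h' : ¬ A1 = p := fun e => h e.symm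
    by_cases h2 : p = B1
    · subst h2
      rcases B2 with _ | _ <;> rcases s with _ | _ <;> simp [h, h']
    · simp [h, h', h2]; norm_num

end single

section mate

variable {m h a : ℕ}

/-- the number of vertices of the mate with a given first component of a given coordinate -/
noncomputable def thetaG (m h a : ℕ) : ℝ := (m + 1) * (h : ℝ) ^ m * 2 ^ m * (2 * h) ^ a

theorem card_P : (Fintype.card (Bool × Fin h) : ℝ) = 2 * h := by
  simp

theorem card_VG : (Fintype.card (VG m h a) : ℝ) = 2 * h * thetaG m h a := by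
  simp only [VG, Fintype.card_prod, Fintype.card_fun, Fintype.card_bool, Fintype.card_fin,
    thetaG]
  push_cast
  ring

theorem sum_inl (j : Fin (m + 1)) (F : Bool × Fin h → ℝ) :
    ∑ ct : (Bool × Fin (m + 1)) × (Fin (m + 1) → Fin h), F (blk ct.1 j, ct.2 j)
      = (m + 1) * (h : ℝ) ^ m * ∑ p, F p := by
  rw [Fintype.sum_prod_type]
  have h1 : ∀ c : Bool × Fin (m + 1), ∑ t : Fin (m + 1) → Fin h, F (blk c j, t j)
      = (h : ℝ) ^ m * ∑ τ, F (blk c j, τ) := by
    intro c
    rw [sum_pi_one j (fun τ => F (blk c j, τ))]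
    simp
  simp_rw [h1]
  rw [sum_blk j (fun b => (h : ℝ) ^ m * ∑ τ, F (b, τ)), ← Finset.mul_sum, Fintype.sum_prod_type]
  ring

theorem sum_first (x : Fin (m + 1) ⊕ Fin a) (F : Bool × Fin h → ℝ) :
    ∑ w : VG m h a, F (XG w x).1 = thetaG m h a * ∑ p, F p := by
  rw [Fintype.sum_prod_type]
  rcases x with j | l
  · have : ∀ ct : (Bool × Fin (m + 1)) × (Fin (m + 1) → Fin h),
        ∑ sz : (Fin m → Bool) × (Fin a → Bool × Fin h), F (XG (ct, sz) (Sum.inl j)).1
          = (2 ^ m * (2 * h) ^ a : ℝ) * F (blk ct.1 j, ct.2 j) := by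
      intro ct
      simp only [XG_inl, Finset.sum_const, Finset.card_univ, nsmul_eq_mul]
      congr 1
      simp only [Fintype.card_prod, Fintype.card_fun, Fintype.card_bool, Fintype.card_fin]
      push_cast
      ring
    simp_rw [this]
    rw [← Finset.mul_sum, sum_inl, thetaG]
    ring
  · have hz : ∑ z : Fin a → Bool × Fin h, F (z l)
        = ((2 : ℝ) * h) ^ (a - 1) * ∑ p, F p := by
      rw [sum_pi_one l F]
      simp
    have : ∀ ct : (Bool × Fin (m + 1)) × (Fin (m + 1) → Fin h),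
        ∑ sz : (Fin m → Bool) × (Fin a → Bool × Fin h), F (XG (ct, sz) (Sum.inr l)).1
          = (2 ^ m : ℝ) * (((2 : ℝ) * h) ^ (a - 1) * ∑ p, F p) := by
      intro ct
      simp only [XG_inr]
      rw [Fintype.sum_prod_type, hz.symm]
      simp
    simp_rw [this]
    rw [Finset.sum_const, Finset.card_univ, nsmul_eq_mul, thetaG]
    have ha : ((2 : ℝ) * h) ^ a = (2 * h) ^ (a - 1) * (2 * h) := by
      rw [← pow_succ]
      congr 1
      have := l.2
      omega
    rw [ha]
    simp only [Fintype.card_prod, Fintype.card_fun, Fintype.card_bool, Fintype.card_fin]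
    push_cast
    ring

/-- coordinates without a sign -/
def IsK (x : Fin (m + 1) ⊕ Fin a) : Prop := x = Sum.inl 0 ∨ ∃ l, x = Sum.inr l

theorem IsK.snd {x : Fin (m + 1) ⊕ Fin a} (hx : IsK x) (w : VG m h a) :
    (XG w x).2 = false := by
  rcases hx with rfl | ⟨l, rfl⟩
  · rfl
  · rfl

theorem IsK.dX_eq {x : Fin (m + 1) ⊕ Fin a} (hx : IsK x) (u w : VG m h a) :
    (dX (XG u x) (XG w x) : ℝ) = if (XG u x).1 = (XG w x).1 then 0 else 1 := by
  have h1 : XG u x = ((XG u x).1, false) := Prod.ext rfl (hx.snd u)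
  have h2 : XG w x = ((XG w x).1, false) := Prod.ext rfl (hx.snd w)
  rw [h1, h2, dX_false]

theorem sum_KK {x y : Fin (m + 1) ⊕ Fin a} (hxy : x ≠ y) (hx : IsK x) (hy : IsK y) :
    ∃ κ : ℝ, ∀ F G : Bool × Fin h → ℝ,
      ∑ w : VG m h a, F (XG w x).1 * G (XG w y).1 = κ * ((∑ p, F p) * ∑ p, G p) := by
  have key : ∀ l : Fin a, ∃ κ : ℝ, ∀ F G : Bool × Fin h → ℝ,
      ∑ w : VG m h a, F (XG w (Sum.inl 0)).1 * G (XG w (Sum.inr l)).1
        = κ * ((∑ p, F p) * ∑ p, G p) := by
    intro l
    refine ⟨((m + 1) * (h : ℝ) ^ m) * (2 ^ m * ((2 : ℝ) * h) ^ (a - 1)), fun F G => ?_⟩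
    rw [Fintype.sum_prod_type]
    have : ∀ ct : (Bool × Fin (m + 1)) × (Fin (m + 1) → Fin h),
        ∑ sz : (Fin m → Bool) × (Fin a → Bool × Fin h),
          F (XG (ct, sz) (Sum.inl 0)).1 * G (XG (ct, sz) (Sum.inr l)).1
        = F (blk ct.1 0, ct.2 0) * (2 ^ m * (((2 : ℝ) * h) ^ (a - 1) * ∑ p, G p)) := by
      intro ct
      simp only [XG_inl, XG_inr]
      rw [← Finset.mul_sum, Fintype.sum_prod_type]
      congr 1
      have hz : ∑ z : Fin a → Bool × Fin h, G (z l)
          = ((2 : ℝ) * h) ^ (a - 1) * ∑ p, G p := by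
        rw [sum_pi_one l G]
        simp
      rw [hz.symm]
      simp
    simp_rw [this]
    rw [← Finset.sum_mul, sum_inl]
    ring
  rcases hx with rfl | ⟨l, rfl⟩
  · rcases hy with rfl | ⟨l', rfl⟩
    · exact absurd rfl hxy
    · exact key l'
  · rcases hy with rfl | ⟨l', rfl⟩
    · obtain ⟨κ, hκ⟩ := key l
      refine ⟨κ, fun F G => ?_⟩
      rw [← mul_comm (∑ p, G p), ← hκ G F]
      exact Finset.sum_congr rfl fun w _ => mul_comm _ _
    · have hll : l ≠ l' := fun h => hxy (by rw [h])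
      refine ⟨(Fintype.card ((Bool × Fin (m + 1)) × (Fin (m + 1) → Fin h)) : ℝ) *
        (2 ^ m * ((2 : ℝ) * h) ^ (a - 1 - 1)), fun F G => ?_⟩
      rw [Fintype.sum_prod_type]
      have : ∀ ct : (Bool × Fin (m + 1)) × (Fin (m + 1) → Fin h),
          ∑ sz : (Fin m → Bool) × (Fin a → Bool × Fin h),
            F (XG (ct, sz) (Sum.inr l)).1 * G (XG (ct, sz) (Sum.inr l')).1
          = 2 ^ m * (((2 : ℝ) * h) ^ (a - 1 - 1) * ((∑ p, F p) * ∑ p, G p)) := by
        intro ct
        simp only [XG_inr]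
        rw [Fintype.sum_prod_type]
        have hz : ∑ z : Fin a → Bool × Fin h, F (z l) * G (z l')
            = ((2 : ℝ) * h) ^ (a - 1 - 1) * ((∑ p, F p) * ∑ p, G p) := by
          rw [sum_pi_two hll F G]
          simp
        rw [hz.symm]
        simp
      simp_rw [this]
      rw [Finset.sum_const, Finset.card_univ, nsmul_eq_mul]
      ring

/-- flipping a sign -/
def flipE (i : Fin m) : VG m h a ≃ VG m h a :=
  Function.Involutive.toPerm
    (fun w => (w.1, (Function.update w.2.1 i (!w.2.1 i), w.2.2)))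
    (by
      intro w
      simp)

theorem flipE_apply (i : Fin m) (w : VG m h a) :
    flipE i w = (w.1, (Function.update w.2.1 i (!w.2.1 i), w.2.2)) := rfl

theorem XG_flip_ne (i : Fin m) (w : VG m h a) {y : Fin (m + 1) ⊕ Fin a}
    (hy : y ≠ Sum.inl i.succ) : XG (flipE i w) y = XG w y := by
  rcases y with j | l
  · have hj : j ≠ i.succ := fun h => hy (by rw [h])
    rw [XG_inl, XG_inl, flipE_apply]
    congr 1
    rcases Fin.eq_zero_or_eq_succ j with rfl | ⟨j', rfl⟩
    · rfl
    · have : j' ≠ i := fun h => hj (by rw [h])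
      simp [this]
  · rfl

theorem XG_flip_self (i : Fin m) (w : VG m h a) :
    XG (flipE i w) (Sum.inl i.succ)
      = ((XG w (Sum.inl i.succ)).1, !(XG w (Sum.inl i.succ)).2) := by
  rw [XG_inl, XG_inl, flipE_apply]
  simp

theorem sum_flip (i : Fin m) (A : (Bool × Fin h) × Bool) (G : VG m h a → ℝ)
    (hG : ∀ w, G (flipE i w) = G w) :
    ∑ w, (dX A (XG w (Sum.inl i.succ)) : ℝ) * G w = ∑ w, G w := by
  have h1 := (flipE (h := h) (a := a) i).sum_comp
    (fun w => (dX A (XG w (Sum.inl i.succ)) : ℝ) * G w)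
  have h2 : ∑ w, (dX A (XG w (Sum.inl i.succ)) : ℝ) * G w
      + ∑ w, (dX A (XG (flipE i w) (Sum.inl i.succ)) : ℝ) * G (flipE i w) = 2 * ∑ w, G w := by
    rw [← Finset.sum_add_distrib, Finset.mul_sum]
    refine Finset.sum_congr rfl fun w _ => ?_
    rw [hG, XG_flip_self, ← add_mul]
    rw [dX_flip_add A (XG w (Sum.inl i.succ)).1 (XG w (Sum.inl i.succ)).2]
  linarith

theorem sum_flip_mul (i : Fin m) (A B : (Bool × Fin h) × Bool) :
    ∑ w : VG m h a, (dX A (XG w (Sum.inl i.succ)) : ℝ) * dX (XG w (Sum.inl i.succ)) B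
      = Fintype.card (VG m h a) + thetaG m h a * (1 - dX A B) := by
  have h1 := (flipE (h := h) (a := a) i).sum_comp
    (fun w => (dX A (XG w (Sum.inl i.succ)) : ℝ) * dX (XG w (Sum.inl i.succ)) B)
  have h2 : ∑ w : VG m h a, (dX A (XG w (Sum.inl i.succ)) : ℝ) * dX (XG w (Sum.inl i.succ)) B
      + ∑ w : VG m h a, (dX A (XG (flipE i w) (Sum.inl i.succ)) : ℝ) *
          dX (XG (flipE i w) (Sum.inl i.succ)) B
      = ∑ w : VG m h a, (2 + 2 * (if (XG w (Sum.inl i.succ)).1 = A.1
          then (1 - (dX A B : ℝ)) else 0)) := by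
    rw [← Finset.sum_add_distrib]
    refine Finset.sum_congr rfl fun w _ => ?_
    rw [XG_flip_self]
    exact dX_flip_mul A B (XG w (Sum.inl i.succ)).1 (XG w (Sum.inl i.succ)).2
  have h3 : ∑ w : VG m h a, (2 + 2 * (if (XG w (Sum.inl i.succ)).1 = A.1
      then (1 - (dX A B : ℝ)) else 0))
      = 2 * (Fintype.card (VG m h a) + thetaG m h a * (1 - dX A B)) := by
    rw [Finset.sum_add_distrib, Finset.sum_const, Finset.card_univ, nsmul_eq_mul,
      ← Finset.mul_sum, sum_first (Sum.inl i.succ)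
        (fun p => if p = A.1 then (1 - (dX A B : ℝ)) else 0)]
    rw [Finset.sum_ite_eq' Finset.univ A.1, if_pos (Finset.mem_univ _)]
    ring
  linarith

/-- row sums of the coordinate distances -/
noncomputable def rowK (m h a : ℕ) : Fin (m + 1) ⊕ Fin a → ℝ :=
  Sum.elim (Fin.cons ((2 * h - 1) * thetaG m h a) (fun _ => (Fintype.card (VG m h a) : ℝ)))
    (fun _ => (2 * h - 1) * thetaG m h a)

theorem row_sum (x : Fin (m + 1) ⊕ Fin a) (u : VG m h a) :
    ∑ w, (dX (XG u x) (XG w x) : ℝ) = rowK m h a x := by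
  have hK : ∀ x : Fin (m + 1) ⊕ Fin a, IsK x →
      ∑ w, (dX (XG u x) (XG w x) : ℝ) = (2 * h - 1) * thetaG m h a := by
    intro x hx
    simp_rw [hx.dX_eq]
    rw [sum_first x (fun p => if (XG u x).1 = p then (0 : ℝ) else 1), sum_ne, card_P]
    ring
  rcases x with j | l
  · rcases Fin.eq_zero_or_eq_succ j with rfl | ⟨i, rfl⟩
    · rw [hK _ (Or.inl rfl)]; rfl
    · have := sum_flip i (XG u (Sum.inl i.succ)) (fun _ : VG m h a => (1 : ℝ)) (fun _ => rfl)
      simp only [mul_one, Finset.sum_const, Finset.card_univ, nsmul_eq_mul] at this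
      rw [this]
      rfl
  · rw [hK _ (Or.inr ⟨l, rfl⟩)]; rfl

theorem mate_spec : ∃ c : ℝ, ∀ u v : VG m h a,
    (∑ w, (delta XG u w : ℝ) * delta XG w v) + thetaG m h a * delta XG u v = c := by
  have hdelta : ∀ u v : VG m h a, (delta XG u v : ℝ) = ∑ x, (dX (XG u x) (XG v x) : ℝ) := by
    intro u v
    unfold delta
    push_cast
    rfl
  simp_rw [hdelta]
  apply combine (fun x u v => (dX (XG u x) (XG v x) : ℝ))
  · intro x
    have hK : ∀ x : Fin (m + 1) ⊕ Fin a, IsK x → ∃ c, ∀ u v : VG m h a,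
        (∑ w, (dX (XG u x) (XG w x) : ℝ) * dX (XG w x) (XG v x))
          + thetaG m h a * dX (XG u x) (XG v x) = c := by
      intro x hx
      refine ⟨thetaG m h a * (2 * h - 1), fun u v => ?_⟩
      simp_rw [hx.dX_eq]
      rw [sum_first x (fun p => (if (XG u x).1 = p then (0 : ℝ) else 1) *
        (if p = (XG v x).1 then 0 else 1)), sum_ne_ne, card_P]
      ring
    rcases x with j | l
    · rcases Fin.eq_zero_or_eq_succ j with rfl | ⟨i, rfl⟩
      · exact hK _ (Or.inl rfl)
      · refine ⟨Fintype.card (VG m h a) + thetaG m h a, fun u v => ?_⟩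
        rw [sum_flip_mul]
        ring
    · exact hK _ (Or.inr ⟨l, rfl⟩)
  · intro x y hxy
    by_cases hx : IsK x
    · by_cases hy : IsK y
      · obtain ⟨κ, hκ⟩ := sum_KK (h := h) hxy hx hy
        refine ⟨κ * ((2 * h - 1) * (2 * h - 1)), fun u v => ?_⟩
        have hy' : ∀ w : VG m h a, (dX (XG w y) (XG v y) : ℝ)
            = if (XG v y).1 = (XG w y).1 then 0 else 1 := by
          intro w
          rw [dX_comm, hy.dX_eq]
        simp_rw [hx.dX_eq, hy']
        rw [hκ (fun p => if (XG u x).1 = p then (0 : ℝ) else 1)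
          (fun p => if (XG v y).1 = p then (0 : ℝ) else 1), sum_ne, sum_ne, card_P]
      · -- `y` has a sign
        obtain ⟨i, rfl⟩ : ∃ i : Fin m, y = Sum.inl i.succ := by
          rcases y with j | l
          · rcases Fin.eq_zero_or_eq_succ j with rfl | ⟨i, rfl⟩
            · exact absurd (Or.inl rfl) hy
            · exact ⟨i, rfl⟩
          · exact absurd (Or.inr ⟨l, rfl⟩) hy
        refine ⟨rowK m h a x, fun u v => ?_⟩
        have := sum_flip i (XG v (Sum.inl i.succ)) (fun w => (dX (XG u x) (XG w x) : ℝ))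
          (fun w => by simp only [XG_flip_ne i w hxy])
        rw [row_sum] at this
        rw [← this]
        refine Finset.sum_congr rfl fun w _ => ?_
        rw [mul_comm, dX_comm (XG w (Sum.inl i.succ))]
    · obtain ⟨i, rfl⟩ : ∃ i : Fin m, x = Sum.inl i.succ := by
        rcases x with j | l
        · rcases Fin.eq_zero_or_eq_succ j with rfl | ⟨i, rfl⟩
          · exact absurd (Or.inl rfl) hx
          · exact ⟨i, rfl⟩
        · exact absurd (Or.inr ⟨l, rfl⟩) hx
      refine ⟨rowK m h a y, fun u v => ?_⟩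
      rw [sum_flip i (XG u (Sum.inl i.succ)) (fun w => (dX (XG w y) (XG v y) : ℝ))
        (fun w => by simp only [XG_flip_ne i w hxy.symm]), ← row_sum y v]
      exact Finset.sum_congr rfl fun w _ => by rw [dX_comm]

theorem mate_row (u : VG m h a) : ∑ v, (delta XG u v : ℝ)
    = m * Fintype.card (VG m h a) + (a + 1) * ((2 * h - 1) * thetaG m h a) := by
  have hdelta : ∀ u v : VG m h a, (delta XG u v : ℝ) = ∑ x, (dX (XG u x) (XG v x) : ℝ) := by
    intro u v
    unfold delta
    push_cast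
    rfl
  simp_rw [hdelta]
  rw [Finset.sum_comm]
  simp_rw [row_sum]
  rw [Fintype.sum_sum_type, Fin.sum_univ_succ]
  simp only [rowK, Sum.elim_inl, Sum.elim_inr, Fin.cons_zero, Fin.cons_succ, Finset.sum_const,
    Finset.card_univ, Fintype.card_fin, nsmul_eq_mul]
  ring

end mate

end Pool.Agent.Lib.MP_c36447_co
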