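import Mathlib

/-!
# A spectral lemma

A real symmetric matrix `D` with zero trace, constant row sums `k`, and
`D * D + θ • D = c • J` has eigenvalues `k` (once), `-θ` (`k / θ` times) and `0` otherwise.
-/

namespace Pool.Agent.Lib.MP_c36447_co

open Matrix

variable {V : Type} [Fintype V] [DecidableEq V]

theorem trace_mul_self_eq (D : Matrix V V ℝ) (hD : D.IsHermitian) :
    (D * D).trace = ∑ i, hD.eigenvalues i ^ 2 := by
  have h := hD.spectral_theorem
  rw [Unitary.conjStarAlgAut_apply] at h
  set U : Matrix V V ℝ := (hD.eigenvectorUnitary : Matrix V V ℝ) with hU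
  set L : Matrix V V ℝ := diagonal (RCLike.ofReal ∘ hD.eigenvalues) with hL
  have hUU : star U * U = 1 := Unitary.coe_star_mul_self _
  have h2 : D * D = U * (L * L) * star U := by
    calc D * D = (U * L * star U) * (U * L * star U) := by rw [← h]
      _ = U * L * (star U * U) * L * star U := by
            simp only [Matrix.mul_assoc]
      _ = _ := by rw [hUU, Matrix.mul_one]; simp only [Matrix.mul_assoc]
  rw [h2, Matrix.trace_mul_comm, ← Matrix.mul_assoc, hUU, Matrix.one_mul, hL,
    Matrix.diagonal_mul_diagonal, Matrix.trace_diagonal]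
  refine Finset.sum_congr rfl fun i _ => ?_
  simp [sq]

/-- number of eigenvalues (with multiplicity) equal to `x` -/
noncomputable def numEig {D : Matrix V V ℝ} (hD : D.IsHermitian) (x : ℝ) : ℕ :=
  (Finset.univ.filter fun i => hD.eigenvalues i = x).card

theorem eig_cases (D : Matrix V V ℝ) (hD : D.IsHermitian) (θ k c : ℝ)
    (h1 : ∀ u v, (∑ w, D u w * D w v) + θ * D u v = c)
    (h2 : ∀ u, ∑ v, D u v = k) (i : V) :
    hD.eigenvalues i = k ∨ hD.eigenvalues i = 0 ∨ hD.eigenvalues i = -θ := by
  set lam := hD.eigenvalues i with hlam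
  set x : V → ℝ := ⇑(hD.eigenvectorBasis i) with hx
  have hmul : D *ᵥ x = lam • x := hD.mulVec_eigenvectorBasis i
  have hne : x ≠ 0 := by
    intro h0
    have := hD.eigenvectorBasis.orthonormal.ne_zero i
    apply this
    ext j
    exact congrFun h0 j
  have hsymm : ∀ u v, D u v = D v u := by
    intro u v
    have := congrFun (congrFun hD u) v
    simpa using this.symm
  have hent : ∀ u, ∑ w, D u w * x w = lam * x u := by
    intro u
    have := congrFun hmul u
    simpa [Matrix.mulVec, dotProduct] using this
  -- the sum of the entries of the eigenvector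
  have hS : k * ∑ u, x u = lam * ∑ u, x u := by
    calc k * ∑ u, x u = ∑ w, (∑ u, D w u) * x w := by
          rw [Finset.mul_sum]; exact Finset.sum_congr rfl fun w _ => by rw [h2]
      _ = ∑ w, ∑ u, D u w * x w := by
          refine Finset.sum_congr rfl fun w _ => ?_
          rw [Finset.sum_mul]
          exact Finset.sum_congr rfl fun u _ => by rw [hsymm]
      _ = ∑ u, ∑ w, D u w * x w := Finset.sum_comm
      _ = ∑ u, lam * x u := Finset.sum_congr rfl fun u _ => hent u
      _ = lam * ∑ u, x u := by rw [Finset.mul_sum]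
  by_cases hs : ∑ u, x u = 0
  · right
    obtain ⟨u, hu⟩ : ∃ u, x u ≠ 0 := by
      by_contra hcon
      push Not at hcon
      exact hne (funext hcon)
    have h3 : (lam * lam + θ * lam) * x u = 0 := by
      have e1 : ∑ v, ((∑ w, D u w * D w v) + θ * D u v) * x v = 0 := by
        simp_rw [h1]
        rw [← Finset.mul_sum, hs, mul_zero]
      have e2 : ∑ v, ((∑ w, D u w * D w v) + θ * D u v) * x v
          = (lam * lam + θ * lam) * x u := by
        simp_rw [add_mul, Finset.sum_add_distrib]
        have e3 : ∑ v, (∑ w, D u w * D w v) * x v = lam * lam * x u := by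
          calc ∑ v, (∑ w, D u w * D w v) * x v = ∑ v, ∑ w, D u w * D w v * x v :=
                Finset.sum_congr rfl fun v _ => Finset.sum_mul _ _ _
            _ = ∑ w, ∑ v, D u w * D w v * x v := Finset.sum_comm
            _ = ∑ w, D u w * (∑ v, D w v * x v) := by
                refine Finset.sum_congr rfl fun w _ => ?_
                rw [Finset.mul_sum]
                exact Finset.sum_congr rfl fun v _ => by ring
            _ = ∑ w, lam * (D u w * x w) := by
                refine Finset.sum_congr rfl fun w _ => ?_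
                rw [hent w]; ring
            _ = lam * lam * x u := by rw [← Finset.mul_sum, hent u]; ring
        have e4 : ∑ v, θ * D u v * x v = θ * lam * x u := by
          calc ∑ v, θ * D u v * x v = θ * ∑ v, D u v * x v := by
                rw [Finset.mul_sum]
                exact Finset.sum_congr rfl fun v _ => by ring
            _ = θ * lam * x u := by rw [hent u]; ring
        rw [e3, e4]
      rw [← e2, e1]
    have h4 : lam * (lam + θ) = 0 := by
      have := (mul_eq_zero.1 h3).resolve_right hu
      linear_combination this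
    rcases mul_eq_zero.1 h4 with h | h
    · left; exact h
    · right; linarith
  · left
    exact (mul_right_cancel₀ hs hS).symm

theorem numEig_spec [Nonempty V] (D : Matrix V V ℝ) (hD : D.IsHermitian) (θ k c : ℝ)
    (hθ : 0 < θ) (hk : 0 < k)
    (h1 : ∀ u v, (∑ w, D u w * D w v) + θ * D u v = c)
    (h2 : ∀ u, ∑ v, D u v = k) (h3 : ∀ u, D u u = 0) :
    (∀ x, x ≠ k → x ≠ 0 → x ≠ -θ → numEig hD x = 0) ∧ numEig hD k = 1 ∧
      θ * numEig hD (-θ) = k ∧ numEig hD 0 + numEig hD k + numEig hD (-θ) = Fintype.card V := by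
  have hcases := eig_cases D hD θ k c h1 h2
  have hz : ∀ x, x ≠ k → x ≠ 0 → x ≠ -θ → numEig hD x = 0 := by
    intro x hx1 hx2 hx3
    rw [numEig, Finset.card_eq_zero, Finset.filter_eq_empty_iff]
    intro i _ hi
    rcases hcases i with h | h | h
    · exact hx1 (by rw [← hi, h])
    · exact hx2 (by rw [← hi, h])
    · exact hx3 (by rw [← hi, h])
  have hk0 : k ≠ 0 := hk.ne'
  have hkθ : k ≠ -θ := by intro h; linarith
  have hθ0 : -θ ≠ 0 := by intro h; linarith
  -- a general summation formula
  have hsum : ∀ F : ℝ → ℝ, ∑ i, F (hD.eigenvalues i) =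
      F k * numEig hD k + F 0 * numEig hD 0 + F (-θ) * numEig hD (-θ) := by
    intro F
    have e : ∀ i, F (hD.eigenvalues i) = F k * (if hD.eigenvalues i = k then 1 else 0) +
        F 0 * (if hD.eigenvalues i = 0 then 1 else 0) +
        F (-θ) * (if hD.eigenvalues i = -θ then 1 else 0) := by
      intro i
      rcases hcases i with h | h | h
      · rw [h, if_pos rfl, if_neg hk0, if_neg hkθ]; ring
      · rw [h, if_neg hk0.symm, if_pos rfl, if_neg hθ0.symm]; ring
      · rw [h, if_neg hkθ.symm, if_neg hθ0, if_pos rfl]; ring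
    rw [Finset.sum_congr rfl fun i _ => e i, Finset.sum_add_distrib, Finset.sum_add_distrib,
      ← Finset.mul_sum, ← Finset.mul_sum, ← Finset.mul_sum]
    simp only [numEig, Finset.sum_boole]
  have hcard : numEig hD 0 + numEig hD k + numEig hD (-θ) = Fintype.card V := by
    have := hsum (fun _ => 1)
    simp only [Finset.sum_const, Finset.card_univ, nsmul_eq_mul, mul_one, one_mul] at this
    have h' : ((numEig hD 0 + numEig hD k + numEig hD (-θ) : ℕ) : ℝ) = (Fintype.card V : ℝ) := by
      push_cast; linarith
    exact_mod_cast h'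
  have htr : k * numEig hD k - θ * numEig hD (-θ) = 0 := by
    have h4 : D.trace = 0 := by
      rw [Matrix.trace]; exact Finset.sum_eq_zero fun i _ => h3 i
    have h5 := hD.trace_eq_sum_eigenvalues
    rw [h4] at h5
    have h6 := hsum id
    simp only [id] at h6
    have h7 : ∑ i, hD.eigenvalues i = 0 := by simpa using h5.symm
    rw [h7] at h6
    linarith
  have hc : c * Fintype.card V = k ^ 2 + θ * k := by
    obtain ⟨u⟩ := (inferInstance : Nonempty V)
    calc c * Fintype.card V = ∑ _v : V, c := by
          rw [Finset.sum_const, Finset.card_univ, nsmul_eq_mul]; ring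
      _ = ∑ v, ((∑ w, D u w * D w v) + θ * D u v) :=
          Finset.sum_congr rfl fun v _ => (h1 u v).symm
      _ = (∑ v, ∑ w, D u w * D w v) + ∑ v, θ * D u v := Finset.sum_add_distrib
      _ = (∑ w, D u w * ∑ v, D w v) + θ * ∑ v, D u v := by
          rw [Finset.sum_comm, Finset.mul_sum]
          congr 1
          exact Finset.sum_congr rfl fun w _ => (Finset.mul_sum _ _ _).symm
      _ = k ^ 2 + θ * k := by
          simp_rw [h2]
          rw [← Finset.sum_mul, h2]; ring
  have htr2 : k ^ 2 * numEig hD k + θ ^ 2 * numEig hD (-θ) = k ^ 2 + θ * k := by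
    have h5 := trace_mul_self_eq D hD
    have h6 : (D * D).trace = c * Fintype.card V := by
      rw [Matrix.trace]
      calc ∑ u, (D * D).diag u = ∑ _u : V, c := by
            refine Finset.sum_congr rfl fun u _ => ?_
            have := h1 u u
            rw [h3, mul_zero, add_zero] at this
            rw [Matrix.diag_apply, Matrix.mul_apply, this]
        _ = _ := by rw [Finset.sum_const, Finset.card_univ, nsmul_eq_mul]; ring
    have h7 := hsum (fun x => x ^ 2)
    rw [← h5, h6, hc] at h7
    linarith
  have hone : (numEig hD k : ℝ) = 1 := by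
    have e : k * (k + θ) * ((numEig hD k : ℝ) - 1) = 0 := by
      linear_combination htr2 + θ * htr
    have : k * (k + θ) ≠ 0 := by positivity
    have := (mul_eq_zero.1 e).resolve_left this
    linarith
  refine ⟨hz, by exact_mod_cast hone, ?_, hcard⟩
  rw [hone] at htr
  linarith

/-- Two matrices as above with the same data have the same eigenvalues with multiplicity. -/
theorem eigenvalues_eq_of_data {W : Type} [Fintype W] [DecidableEq W] [Nonempty V] [Nonempty W]
    (D : Matrix V V ℝ) (hD : D.IsHermitian) (E : Matrix W W ℝ) (hE : E.IsHermitian)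
    (hcard : Fintype.card V = Fintype.card W)
    (θ k c c' : ℝ) (hθ : 0 < θ) (hk : 0 < k)
    (h1 : ∀ u v, (∑ w, D u w * D w v) + θ * D u v = c)
    (h2 : ∀ u, ∑ v, D u v = k) (h3 : ∀ u, D u u = 0)
    (g1 : ∀ u v, (∑ w, E u w * E w v) + θ * E u v = c')
    (g2 : ∀ u, ∑ v, E u v = k) (g3 : ∀ u, E u u = 0) :
    Finset.univ.val.map hD.eigenvalues = Finset.univ.val.map hE.eigenvalues := by
  obtain ⟨a1, a2, a3, a4⟩ := numEig_spec D hD θ k c hθ hk h1 h2 h3
  obtain ⟨b1, b2, b3, b4⟩ := numEig_spec E hE θ k c' hθ hk g1 g2 g3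
  have hcount : ∀ {U : Type} [Fintype U] [DecidableEq U] {F : Matrix U U ℝ}
      (hF : F.IsHermitian) (x : ℝ),
      (Finset.univ.val.map hF.eigenvalues).count x = numEig hF x := by
    intro U _ _ F hF x
    rw [Multiset.count_map, numEig, Finset.card_def, Finset.filter_val]
    congr 1
    exact Multiset.filter_congr fun i _ => eq_comm
  have hθθ : numEig hD (-θ) = numEig hE (-θ) := by
    have : θ * (numEig hD (-θ) : ℝ) = θ * numEig hE (-θ) := by rw [a3, b3]
    exact_mod_cast mul_left_cancel₀ hθ.ne' this
  ext x
  rw [hcount, hcount]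
  by_cases x1 : x = k
  · rw [x1, a2, b2]
  by_cases x3 : x = -θ
  · rw [x3, hθθ]
  by_cases x2 : x = 0
  · rw [x2]; omega
  · rw [a1 x x1 x2 x3, b1 x x1 x2 x3]

end Pool.Agent.Lib.MP_c36447_co
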